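import Pool.Agent.R553.HP.Crit
import Pool.Agent.H614R2.DPO.TP1
import Pool.Agent.H614R2.DPO.TG2
import Pool.Agent.H528R3.FD.PolyZZ
import Pool.Agent.NPC.Dec
import Pool.Agent.H601R2.PP

/-!
# Homogeneous partial edge drawings: the algorithm
-/

namespace Pool.Agent.R553.HP

open Pool.Agent.NPC Pool.Agent.H528R3.FD.PolyZZ Pool.Agent.H614R2.DPO

/-! ### General tests -/

section tests

variable {α β : Type} [TEnc α] [TEnc β]

theorem qle {f g : α → ℚ} (hf : Poly f) (hg : Poly g) : PP (fun a => f a ≤ g a) := by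
  refine PP.congr (PP.bool (NPC.Poly.ile (poly_num (poly_sub hf hg)) (NPC.Poly.const (0 : ℤ))))
    fun a => ?_
  rw [decide_eq_true_eq, Rat.num_nonpos, sub_nonpos]

theorem qlt {f g : α → ℚ} (hf : Poly f) (hg : Poly g) : PP (fun a => f a < g a) :=
  PP.congr (qle hg hf).not fun _ => not_le

theorem qabs {f : α → ℚ} (hf : Poly f) : Poly (fun a => |f a|) := by
  have : (fun a => |f a|) = fun a => if 0 ≤ f a then f a else - f a := by
    funext a
    split_ifs with h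
    · exact abs_of_nonneg h
    · exact abs_of_neg (not_le.1 h)
  rw [this]
  exact PP.ite (qle (NPC.Poly.const (0 : ℚ)) hf) hf (poly_neg hf)

omit [TEnc β] in
theorem nodup_iff {l : List β} :
    l.Nodup ↔ ∀ p ∈ l.zipIdx, ∀ q ∈ l.zipIdx, p.1 = q.1 → p.2 = q.2 := by
  constructor
  · rintro h ⟨x, i⟩ hp ⟨y, j⟩ hq hxy
    simp only at hxy
    subst hxy
    rw [List.mem_zipIdx_iff_getElem?] at hp hq
    simp only at hp hq
    obtain ⟨hi, hi'⟩ := List.getElem?_eq_some_iff.1 hp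
    obtain ⟨hj, hj'⟩ := List.getElem?_eq_some_iff.1 hq
    exact (List.Nodup.getElem_inj_iff h).1 (hi'.trans hj'.symm)
  · intro h
    rw [List.nodup_iff_injective_getElem]
    intro i j hij
    simp only at hij
    have h1 : (l[i.1], i.1) ∈ l.zipIdx := by
      rw [List.mem_zipIdx_iff_getElem?]; simp
    have h2 : (l[j.1], j.1) ∈ l.zipIdx := by
      rw [List.mem_zipIdx_iff_getElem?]; simp
    exact Fin.ext (h _ h1 _ h2 hij)

theorem ppNodup {l : α → List β} (hl : Poly l) : PP (fun a => (l a).Nodup) := by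
  refine PP.congr (PP.ball (r := fun a p => ∀ q ∈ (l a).zipIdx, p.1 = q.1 → p.2 = q.2)
    (NPC.Poly.zipIdx hl) (PP.ball (l := fun x : α × β × ℕ => (l x.1).zipIdx)
    (r := fun x q => x.2.1 = q.1 → x.2.2 = q.2) (by fun_prop) ?_)) fun a => nodup_iff.symm
  refine PP.congr (p := fun x : (α × β × ℕ) × β × ℕ => x.1.2.1 ≠ x.2.1 ∨ x.1.2.2 = x.2.2)
    (PP.or (PP.ne (by fun_prop) (by fun_prop)) (PP.eq (by fun_prop) (by fun_prop))) fun x => ?_
  rw [imp_iff_not_or]

end tests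

/-! ### The coordinates -/

section coords

variable {α : Type} [TEnc α]

theorem poly_vx {D : α → Dr} {u : α → ℕ} (hD : Poly D) (hu : Poly u) :
    Poly (fun a => vx (D a) (u a)) := by
  unfold vx
  exact NPC.Poly.getD (NPC.Poly.fst hD) hu (NPC.Poly.const _)

theorem poly_dt {p q : α → ℚ × ℚ} (hp : Poly p) (hq : Poly q) :
    Poly (fun a => dt (p a) (q a)) := by
  unfold dt
  exact poly_sub (poly_mul (NPC.Poly.fst hp) (NPC.Poly.snd hq))
    (poly_mul (NPC.Poly.snd hp) (NPC.Poly.fst hq))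

theorem poly_df {p q : α → ℚ × ℚ} (hp : Poly p) (hq : Poly q) :
    Poly (fun a => df (p a) (q a)) := by
  unfold df
  exact NPC.Poly.pair (poly_sub (NPC.Poly.fst hq) (NPC.Poly.fst hp))
    (poly_sub (NPC.Poly.snd hq) (NPC.Poly.snd hp))

theorem poly_dir {D : α → Dr} {e : α → ℕ × ℕ} (hD : Poly D) (he : Poly e) :
    Poly (fun a => dir (D a) (e a)) := by
  unfold dir
  exact poly_df (poly_vx hD (NPC.Poly.fst he)) (poly_vx hD (NPC.Poly.snd he))

theorem poly_par {D : α → Dr} {e f : α → ℕ × ℕ} (hD : Poly D) (he : Poly e) (hf : Poly f) :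
    Poly (fun a => par (D a) (e a) (f a)) := by
  unfold par
  exact poly_div (poly_dt (poly_df (poly_vx hD (NPC.Poly.fst he)) (poly_vx hD (NPC.Poly.fst hf)))
    (poly_dir hD hf)) (poly_dt (poly_dir hD he) (poly_dir hD hf))

theorem pp_crs {D : α → Dr} {e f : α → ℕ × ℕ} (hD : Poly D) (he : Poly e) (hf : Poly f) :
    PP (fun a => Crs (D a) (e a) (f a)) := by
  unfold Crs
  have h1 := poly_par hD he hf
  have h2 := poly_par hD hf he
  exact PP.and (PP.ne (poly_dt (poly_dir hD he) (poly_dir hD hf)) (NPC.Poly.const 0))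
    (PP.and (PP.and (qlt (NPC.Poly.const 0) h1) (qlt h1 (NPC.Poly.const 1)))
      (PP.and (qlt (NPC.Poly.const 0) h2) (qlt h2 (NPC.Poly.const 1))))

theorem pp_onSeg {p q r : α → ℚ × ℚ} (hp : Poly p) (hq : Poly q) (hr : Poly r) :
    PP (fun a => OnSeg (p a) (q a) (r a)) := by
  unfold OnSeg
  have p1 := NPC.Poly.fst hp
  have p2 := NPC.Poly.snd hp
  have q1 := NPC.Poly.fst hq
  have q2 := NPC.Poly.snd hq
  have r1 := NPC.Poly.fst hr
  have r2 := NPC.Poly.snd hr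
  have h1 : Poly (fun a => ((r a).1 - (p a).1) * ((q a).1 - (p a).1) +
      ((r a).2 - (p a).2) * ((q a).2 - (p a).2)) :=
    poly_add (poly_mul (poly_sub r1 p1) (poly_sub q1 p1))
      (poly_mul (poly_sub r2 p2) (poly_sub q2 p2))
  have h2 : Poly (fun a => ((q a).1 - (p a).1) * ((q a).1 - (p a).1) +
      ((q a).2 - (p a).2) * ((q a).2 - (p a).2)) :=
    poly_add (poly_mul (poly_sub q1 p1) (poly_sub q1 p1))
      (poly_mul (poly_sub q2 p2) (poly_sub q2 p2))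
  exact PP.and (PP.eq (poly_dt (poly_df hp hq) (poly_df hp hr)) (NPC.Poly.const 0))
    (PP.and (qle (NPC.Poly.const 0) h1) (qle h1 h2))

end coords

/-! ### Drawings are recognised in polynomial time -/

theorem isDrawing_iff (D : Dr) : IsDrawing D ↔ D.1.Nodup ∧ D.2.Nodup ∧
    (∀ e ∈ D.2, e.1 < e.2 ∧ e.2 < D.1.length) ∧
    ∀ e ∈ D.2, ∀ p ∈ D.1.zipIdx, p.2 ≠ e.1 → p.2 ≠ e.2 →
      ¬ OnSeg (vx D e.1) (vx D e.2) p.1 := by
  unfold IsDrawing
  refine and_congr_right fun h1 => and_congr_right fun _ => and_congr_right fun h3 => ?_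
  have hvx : ∀ p ∈ D.1.zipIdx, vx D p.2 = p.1 ∧ p.2 < D.1.length := by
    rintro ⟨x, i⟩ hp
    rw [List.mem_zipIdx_iff_getElem?] at hp
    obtain ⟨hi, hi'⟩ := List.getElem?_eq_some_iff.1 hp
    refine ⟨?_, hi⟩
    simp only at hi'
    unfold vx
    simp only
    rw [List.getD_eq_getElem _ _ hi, hi']
  have hne : ∀ e ∈ D.2, vx D e.1 ≠ vx D e.2 := by
    intro e he h0
    have := vx_inj h1 (by have := h3 e he; omega) (h3 e he).2 h0
    have := h3 e he
    omega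
  constructor
  · intro h e he p hp hp1 hp2
    obtain ⟨h4, h5⟩ := hvx p hp
    have := h e he p.2 h5 hp1 hp2
    rw [onSeg_iff (hne e he), h4] at this
    exact this
  · intro h e he w hw hw1 hw2
    rw [onSeg_iff (hne e he)]
    have h6 : (D.1[w], w) ∈ D.1.zipIdx := by
      rw [List.mem_zipIdx_iff_getElem?]; simp
    have := h e he _ h6 hw1 hw2
    rw [← (hvx _ h6).1] at this
    exact this

theorem pp_isDrawing : PP (fun D : Dr => IsDrawing D) := by
  refine PP.congr ?_ fun D => (isDrawing_iff D).symm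
  refine PP.and (ppNodup (by fun_prop)) (PP.and (ppNodup (by fun_prop)) (PP.and ?_ ?_))
  · exact PP.ball (l := fun D : Dr => D.2)
      (r := fun (D : Dr) (e : ℕ × ℕ) => e.1 < e.2 ∧ e.2 < D.1.length) (by fun_prop)
      (PP.and (PP.lt (by fun_prop) (by fun_prop)) (PP.lt (by fun_prop) (by fun_prop)))
  · refine PP.ball (l := fun D : Dr => D.2)
      (r := fun (D : Dr) (e : ℕ × ℕ) => ∀ p ∈ D.1.zipIdx, p.2 ≠ e.1 → p.2 ≠ e.2 →
      ¬ OnSeg (vx D e.1) (vx D e.2) p.1) (by fun_prop) ?_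
    refine PP.ball (l := fun x : Dr × ℕ × ℕ => x.1.1.zipIdx)
      (r := fun x p => p.2 ≠ x.2.1 → p.2 ≠ x.2.2 →
      ¬ OnSeg (vx x.1 x.2.1) (vx x.1 x.2.2) p.1) (by fun_prop) ?_
    refine PP.congr (p := fun x : (Dr × ℕ × ℕ) × (ℚ × ℚ) × ℕ => x.2.2 = x.1.2.1 ∨
      (x.2.2 = x.1.2.2 ∨ ¬ OnSeg (vx x.1.1 x.1.2.1) (vx x.1.1 x.1.2.2) x.2.1)) ?_ fun x => ?_
    · refine PP.or (PP.eq (by fun_prop) (by fun_prop)) (PP.or (PP.eq (by fun_prop) (by fun_prop))
        (PP.not (pp_onSeg (poly_vx (by fun_prop) (by fun_prop))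
          (poly_vx (by fun_prop) (by fun_prop)) (by fun_prop))))
    · tauto

/-! ### The literals and the conflicts -/

noncomputable instance (D : Dr) (e f : ℕ × ℕ) : Decidable (Crs D e f) :=
  Classical.propDecidable _

/-- the list of the literals -/
noncomputable def lits (D : Dr) : List ((ℕ × ℕ) × (ℕ × ℕ)) :=
  (D.2.flatMap (fun e => D.2.map (fun f => (e, f)))).filter (fun x => decide (Crs D x.1 x.2))

theorem mem_lits {D : Dr} {x : (ℕ × ℕ) × (ℕ × ℕ)} : x ∈ lits D ↔ Lit D x := by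
  unfold lits Lit
  rw [List.mem_filter, List.mem_flatMap, decide_eq_true_eq]
  constructor
  · rintro ⟨⟨e, he, hx⟩, hc⟩
    obtain ⟨f, hf, rfl⟩ := List.mem_map.1 hx
    exact ⟨he, hf, hc⟩
  · rintro ⟨he, hf, hc⟩
    exact ⟨⟨x.1, he, List.mem_map.2 ⟨x.2, hf, rfl⟩⟩, hc⟩

theorem poly_lits : Poly lits := by
  unfold lits
  refine PP.filter (l := fun D : Dr => D.2.flatMap (fun e => D.2.map (fun f => (e, f))))
    (r := fun (D : Dr) (x : (ℕ × ℕ) × (ℕ × ℕ)) => Crs D x.1 x.2) (by fun_prop) ?_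
  exact pp_crs (by fun_prop) (by fun_prop) (by fun_prop)

/-- the test for a conflict -/
def confB (cut : ℚ → Bool) (D : Dr) (x y : (ℕ × ℕ) × (ℕ × ℕ)) : Bool :=
  decide (y.2 = x.1) && cut ((1 - |par D x.1 x.2 - par D x.1 y.1|) / 2)

theorem confB_iff {cut : ℚ → Bool} {δ : ℝ} (hcut : ∀ q : ℚ, (q : ℝ) ≤ δ ↔ cut q = true) {D : Dr}
    {x y : (ℕ × ℕ) × (ℕ × ℕ)} : confB cut D x y = true ↔ Conf δ D x y := by
  unfold confB Conf
  rw [Bool.and_eq_true, decide_eq_true_eq, ← hcut]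
  refine and_congr_right fun _ => ?_
  push_cast
  constructor <;> intro h <;> linarith

theorem poly_confB {cut : ℚ → Bool} (hcut : Poly cut) :
    Poly (fun p : Dr × ((ℕ × ℕ) × (ℕ × ℕ)) × ((ℕ × ℕ) × (ℕ × ℕ)) => confB cut p.1 p.2.1 p.2.2) := by
  unfold confB
  refine NPC.Poly.and (by fun_prop) (hcut.comp ?_)
  refine poly_div (poly_sub (NPC.Poly.const 1) (qabs (poly_sub ?_ ?_))) (NPC.Poly.const 2)
  · exact poly_par (by fun_prop) (by fun_prop) (by fun_prop)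
  · exact poly_par (by fun_prop) (by fun_prop) (by fun_prop)

/-- the second part of the test -/
def Ok (cut : ℚ → Bool) (D : Dr) : Prop :=
  ∀ x ∈ lits D, ¬ (x.swap ∈ reachG (confB cut D) (lits D) x ∧
    x ∈ reachG (confB cut D) (lits D) x.swap)

theorem pp_ok {cut : ℚ → Bool} (hcut : Poly cut) : PP (fun D : Dr => Ok cut D) := by
  have h1 := poly_confB hcut
  have h2 := poly_lits
  unfold Ok
  refine PP.ball (r := fun D x => ¬ (x.swap ∈ reachG (confB cut D) (lits D) x ∧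
    x ∈ reachG (confB cut D) (lits D) x.swap)) h2 (PP.not (PP.and (PP.mem ?_ ?_) (PP.mem ?_ ?_)))
  · unfold Prod.swap
    fun_prop
  · refine poly_reachG (R := fun x : Dr × ((ℕ × ℕ) × (ℕ × ℕ)) => confB cut x.1)
      (S := fun x => lits x.1) (x := fun x => x.2) ?_ (h2.comp (by fun_prop)) (by fun_prop)
    exact h1.comp (f := fun p : (Dr × ((ℕ × ℕ) × (ℕ × ℕ))) × ((ℕ × ℕ) × (ℕ × ℕ)) ×
      ((ℕ × ℕ) × (ℕ × ℕ)) => (p.1.1, p.2.1, p.2.2)) (by fun_prop)
  · fun_prop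
  · refine poly_reachG (R := fun x : Dr × ((ℕ × ℕ) × (ℕ × ℕ)) => confB cut x.1)
      (S := fun x => lits x.1) (x := fun x => x.2.swap) ?_ (h2.comp (by fun_prop)) ?_
    · exact h1.comp (f := fun p : (Dr × ((ℕ × ℕ) × (ℕ × ℕ))) × ((ℕ × ℕ) × (ℕ × ℕ)) ×
        ((ℕ × ℕ) × (ℕ × ℕ)) => (p.1.1, p.2.1, p.2.2)) (by fun_prop)
    · unfold Prod.swap
      fun_prop

theorem reach_eq {cut : ℚ → Bool} {δ : ℝ} (hcut : ∀ q : ℚ, (q : ℝ) ≤ δ ↔ cut q = true) {D : Dr}
    {x y : (ℕ × ℕ) × (ℕ × ℕ)} (hx : x ∈ lits D) :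
    y ∈ reachG (confB cut D) (lits D) x ↔ Rch (lits D) (Conf δ D) x y := by
  rw [mem_reachG]
  unfold Rch
  have : (fun a b => confB cut D a b = true ∧ b ∈ lits D) =
      (fun a b => Conf δ D a b ∧ b ∈ lits D) := by
    funext a b
    rw [confB_iff hcut]
  rw [this]
  exact and_iff_right hx

theorem ok_iff {cut : ℚ → Bool} {δ : ℝ} (hcut : ∀ q : ℚ, (q : ℝ) ≤ δ ↔ cut q = true)
    (h0 : 0 < δ) (h1 : δ < 1 / 2) {D : Dr} (hD : IsDrawing D) :
    (∃ a b, IsHPED δ D a b) ↔ Ok cut D := by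
  rw [crit hD h0 h1]
  have hsw : ∀ x ∈ lits D, x.swap ∈ lits D := by
    intro x hx
    rw [mem_lits] at hx ⊢
    exact ⟨hx.2.1, hx.1, crs_symm hx.2.2⟩
  have h2 := twoSat (S := lits D) (neg := Prod.swap) (r := Conf δ D) hsw
    (fun x _ => Prod.swap_swap x)
    (by
      intro x hx h3
      rw [mem_lits] at hx
      have h4 : x.2 = x.1 := congrArg Prod.fst h3
      have h5 := hx.2.2
      rw [h4] at h5
      exact crs_irrefl h5)
    (by
      rintro ⟨e, f⟩ _ ⟨f', e'⟩ _ ⟨h3, h4⟩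
      simp only at h3
      subst h3
      refine ⟨rfl, ?_⟩
      simp only [Prod.fst_swap, Prod.snd_swap]
      simp only at h4
      push_cast at h4 ⊢
      rw [abs_sub_comm]
      exact h4)
  constructor
  · rintro ⟨T, hT1, hT2⟩
    have h3 := h2.1 ⟨T, fun x hx => hT1 x (mem_lits.1 hx), fun x hx y hy hxy =>
      hT2 x (mem_lits.1 hx) y (mem_lits.1 hy) hxy⟩
    intro x hx
    rw [reach_eq hcut hx, reach_eq hcut (hsw x hx)]
    exact h3 x hx
  · intro hok
    obtain ⟨T, hT1, hT2⟩ := h2.2 (fun x hx => by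
      have h3 := hok x hx
      rw [reach_eq hcut hx, reach_eq hcut (hsw x hx)] at h3
      exact h3)
    exact ⟨T, fun x hx => hT1 x (mem_lits.2 hx), fun x hx y hy hxy =>
      hT2 x (mem_lits.2 hx) y (mem_lits.2 hy) hxy⟩

theorem main_poly {cut : ℚ → Bool} (hc : Poly cut) {δ : ℝ}
    (hcut : ∀ q : ℚ, (q : ℝ) ≤ δ ↔ cut q = true) (h0 : 0 < δ) (h1 : δ < 1 / 2) :
    InPP (fun D : Dr => HPED δ D) := by
  have h2 : PP (fun D : Dr => HPED δ D) := by
    refine PP.congr (PP.and pp_isDrawing (pp_ok hc)) fun D => ?_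
    unfold HPED
    exact and_congr_right fun hD => (ok_iff hcut h0 h1 hD).symm
  obtain ⟨b, hb, hb'⟩ := h2
  exact inPP_of hb fun D => (hb' D).symm

theorem main_real {δ : ℝ} (h0 : 0 < δ) (h1 : δ < 1 / 2)
    (hδ : InPP (fun q : ℚ => (q : ℝ) ≤ δ)) : InPP (fun D : Dr => HPED δ D) := by
  obtain ⟨V, hV, hV'⟩ := hδ.exists_test
  have h2 : PC (fun x : List Bool => x) (fun x : List Bool => x) V :=
    H642R2.TMSim.polyTime_toPC hV
  have h3 : PC (bits : ℚ → List Bool) (fun x : List Bool => x) (fun q => bits q) := by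
    obtain ⟨c, p, hc⟩ := (NPC.Poly.id : Poly (fun q : ℚ => q))
    exact ⟨c, p, hc⟩
  have h4 : PC (bits : ℚ → List Bool) (fun x : List Bool => x) (fun q => V (bits q)) :=
    PC.comp (g := V) (f := fun q : ℚ => bits q) h2 h3
  have h5 : Poly (fun q : ℚ => V (bits q)) :=
    PC.comp (g := fun x => x) (f := fun q : ℚ => V (bits q)) PC.rawIn h4
  have h6 : Poly (fun q : ℚ => decide (V (bits q) = [true])) :=
    NPC.Poly.decide_eq h5 (NPC.Poly.const [true])
  exact main_poly h6 (fun q => by rw [hV', decide_eq_true_eq]) h0 h1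

theorem main_rat {δ : ℚ} (h0 : 0 < δ) (h1 : δ < 1 / 2) :
    InPP (fun D : Dr => HPED (δ : ℝ) D) := by
  obtain ⟨b, hb, hb'⟩ := qle (NPC.Poly.id : Poly (fun q : ℚ => q)) (NPC.Poly.const δ)
  refine main_poly hb (fun q => ?_) (by exact_mod_cast h0) ?_
  · rw [hb']
    exact_mod_cast Iff.rfl
  · have : ((δ : ℚ) : ℝ) < ((1 / 2 : ℚ) : ℝ) := by exact_mod_cast h1
    simpa using this

end Pool.Agent.R553.HP
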