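import Pool.Agent.R553.HP.Geo2
import Pool.Agent.R553.HP.TwoSat

/-!
# Homogeneous partial edge drawings: the 2-SAT criterion
-/

namespace Pool.Agent.R553.HP

theorem helly1 {S : Finset ℝ} {g : ℝ} (hg1 : g < 1)
    (h01 : ∀ s ∈ S, 0 < s ∧ s < 1) (hd : ∀ s ∈ S, ∀ t ∈ S, s - t < g) :
    ∃ α : ℝ, 0 ≤ α ∧ α ≤ 1 - g ∧ ∀ s ∈ S, α < s ∧ s < α + g := by
  rcases S.eq_empty_or_nonempty with rfl | hS
  · exact ⟨0, le_refl _, by linarith, by simp⟩
  · have hM := S.max'_mem hS
    have hm := S.min'_mem hS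
    have hMm := hd _ hM _ hm
    obtain ⟨M, hMM⟩ : ∃ M, M = S.max' hS := ⟨_, rfl⟩
    obtain ⟨m, hmm⟩ : ∃ m, m = S.min' hS := ⟨_, rfl⟩
    rw [← hMM] at hM hMm
    rw [← hmm] at hm hMm
    have h1 := h01 _ hM
    have h2 := h01 _ hm
    have hlu : max 0 (M - g) < min (1 - g) m := by
      rw [max_lt_iff, lt_min_iff, lt_min_iff]
      refine ⟨⟨by linarith, h2.1⟩, ⟨by linarith [h1.2], by linarith⟩⟩
    obtain ⟨α, ha1, ha2⟩ := exists_between hlu
    rw [max_lt_iff] at ha1
    rw [lt_min_iff] at ha2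
    refine ⟨α, ha1.1.le, ha2.1.le, fun s hs => ?_⟩
    have h3 : s ≤ M := hMM ▸ S.le_max' s hs
    have h4 : m ≤ s := hmm ▸ S.min'_le s hs
    exact ⟨by linarith [ha2.2], by linarith [ha1.2]⟩

/-- the conflict between the literals `(e, f)` and `(f', e)`: the crossings of `e` with `f` and
with `f'` cannot be both in the gap of `e` -/
def Conf (δ : ℝ) (D : Dr) (x y : (ℕ × ℕ) × (ℕ × ℕ)) : Prop :=
  y.2 = x.1 ∧ 1 - 2 * δ ≤ |((par D x.1 x.2 - par D x.1 y.1 : ℚ) : ℝ)|

/-- a literal: two crossing edges -/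
def Lit (D : Dr) (x : (ℕ × ℕ) × (ℕ × ℕ)) : Prop := x.1 ∈ D.2 ∧ x.2 ∈ D.2 ∧ Crs D x.1 x.2

theorem crs_irrefl {D : Dr} {e : ℕ × ℕ} : ¬ Crs D e e := by
  intro h
  apply h.1
  unfold dt; ring

theorem dist_pos' {D : Dr} (hD : IsDrawing D) {e : ℕ × ℕ} (he : e ∈ D.2) :
    0 < dist (pt D e.1) (pt D e.2) := by
  rw [dist_pos]
  intro h0
  have h1 := hD.2.2.1 _ he
  have := vx_inj hD.1 (by omega) h1.2 (pt_inj.1 h0)
  omega

theorem crit {D : Dr} (hD : IsDrawing D) {δ : ℝ} (h0 : 0 < δ) (h1 : δ < 1 / 2) :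
    (∃ a b, IsHPED δ D a b) ↔ ∃ T : Set ((ℕ × ℕ) × (ℕ × ℕ)),
      (∀ x, Lit D x → x ∈ T ∨ x.swap ∈ T) ∧
      ∀ x, Lit D x → ∀ y, Lit D y → Conf δ D x y → x ∈ T → y.swap ∉ T := by
  constructor
  · rintro ⟨a, b, hab, hx⟩
    refine ⟨{x | a x.1 < par D x.1 x.2 * dist (pt D x.1.1) (pt D x.1.2) ∧
      b x.1 < (1 - par D x.1 x.2) * dist (pt D x.1.1) (pt D x.1.2)}, ?_, ?_⟩
    · rintro ⟨e, f⟩ ⟨he, hf, hc⟩
      simp only at he hf hc
      have hef : e ≠ f := by rintro rfl; exact crs_irrefl hc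
      have hat := at_eq_of_crs hc.1
      by_contra hcon
      rw [not_or] at hcon
      obtain ⟨hc1, hc2⟩ := hcon
      have hs0 : (0 : ℝ) < par D e f := by exact_mod_cast hc.2.1.1
      have hs1 : (par D e f : ℝ) < 1 := by exact_mod_cast hc.2.1.2
      have ht0 : (0 : ℝ) < par D f e := by exact_mod_cast hc.2.2.1
      have ht1 : (par D f e : ℝ) < 1 := by exact_mod_cast hc.2.2.2
      have m1 : at' (pt D e.1) (pt D e.2) (par D e f) ∈ drawn D a b e := by
        unfold drawn
        rw [mem_drawn hs0.le hs1.le]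
        by_contra hcon
        push Not at hcon
        exact hc1 hcon
      have m2 : at' (pt D e.1) (pt D e.2) (par D e f) ∈ drawn D a b f := by
        rw [hat]
        unfold drawn
        rw [mem_drawn ht0.le ht1.le]
        by_contra hcon
        push Not at hcon
        exact hc2 hcon
      obtain ⟨w, hw, _, hw'⟩ := hx e he f hf hef _ m1 m2
      have hne : pt D e.1 ≠ pt D e.2 := dist_pos.1 (dist_pos' hD he)
      rcases hw with rfl | rfl
      · have := at_inj hne (hw'.trans (at_zero _ _).symm)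
        linarith
      · have := at_inj hne (hw'.trans (at_one _ _).symm)
        linarith
    · rintro ⟨e, f⟩ ⟨he, hf, hc⟩ ⟨f', e'⟩ ⟨_, _, hc'⟩ ⟨h2, h3⟩ ⟨hT1, hT2⟩ ⟨hT3, hT4⟩
      simp only at h2
      subst h2
      simp only [Prod.fst_swap, Prod.snd_swap] at hT3 hT4
      simp only at he hf hc hc' hT1 hT2 h3
      have hL := dist_pos' hD he
      have hsum := (hab _ he).2.2
      obtain ⟨L, hLL⟩ : ∃ L, L = dist (pt D e'.1) (pt D e'.2) := ⟨_, rfl⟩
      rw [← hLL] at hL hsum hT1 hT2 hT3 hT4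
      push_cast at h3
      rcases le_abs.1 h3 with h4 | h4
      · nlinarith
      · nlinarith
  · rintro ⟨T, hT1, hT2⟩
    have key : ∀ e : ℕ × ℕ, ∃ α : ℝ, e ∈ D.2 → 0 ≤ α ∧ α ≤ 2 * δ ∧
        ∀ f ∈ D.2, Crs D e f → (e, f) ∈ T → α < par D e f ∧ par D e f < α + (1 - 2 * δ) := by
      intro e
      by_cases he : e ∈ D.2
      · classical
        obtain ⟨α, ha0, ha1, ha2⟩ := helly1
          (S := (D.2.toFinset.filter (fun f => Crs D e f ∧ (e, f) ∈ T)).image
            (fun f => (par D e f : ℝ))) (g := 1 - 2 * δ) (by linarith)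
          (by
            intro s hs
            obtain ⟨f, hf, rfl⟩ := Finset.mem_image.1 hs
            have hf' := (Finset.mem_filter.1 hf).2.1
            exact ⟨by exact_mod_cast hf'.2.1.1, by exact_mod_cast hf'.2.1.2⟩)
          (by
            intro s hs t ht
            obtain ⟨f, hf, rfl⟩ := Finset.mem_image.1 hs
            obtain ⟨f', hf', rfl⟩ := Finset.mem_image.1 ht
            rw [Finset.mem_filter, List.mem_toFinset] at hf hf'
            by_contra hcon
            push Not at hcon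
            refine hT2 (e, f) ⟨he, hf.1, hf.2.1⟩ (f', e) ⟨hf'.1, he, crs_symm hf'.2.1⟩
              ⟨rfl, ?_⟩ hf.2.2 hf'.2.2
            push_cast
            exact le_trans hcon (le_abs_self _))
        refine ⟨α, fun _ => ⟨ha0, by linarith, fun f hf hc hfT => ?_⟩⟩
        exact ha2 _ (Finset.mem_image_of_mem _ (Finset.mem_filter.2
          ⟨List.mem_toFinset.2 hf, hc, hfT⟩))
      · exact ⟨0, fun h => absurd h he⟩
    choose α hα using key
    refine ⟨fun e => α e * dist (pt D e.1) (pt D e.2),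
      fun e => (2 * δ - α e) * dist (pt D e.1) (pt D e.2), fun e he => ?_, ?_⟩
    · have hL := dist_pos' hD he
      obtain ⟨h2, h3, _⟩ := hα e he
      refine ⟨by positivity, mul_nonneg (by linarith) hL.le, by ring⟩
    · intro e he f hf hef x hxe hxf
      have hLe := dist_pos' hD he
      have hLf := dist_pos' hD hf
      -- the two edges cross at x
      have hse : ∀ {g : ℕ × ℕ} {a b : ℕ × ℕ → ℝ}, x ∈ drawn D a b g →
          x ∈ segment ℝ (pt D g.1) (pt D g.2) := by
        intro g a b hx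
        rcases hx with hx | hx
        · exact hx.1
        · rw [segment_symm]; exact hx.1
      obtain ⟨s, hs0, hs1, hs⟩ := mem_seg.1 (hse hxe)
      obtain ⟨t, ht0, ht1, ht⟩ := mem_seg.1 (hse hxf)
      rcases inter hD he hf hef hs0 hs1 ht0 ht1 (hs.symm.trans ht) with h2 | ⟨hc, h3, h4⟩
      · obtain ⟨w, h5, h6, h7⟩ := h2
        exact ⟨w, h5, h6, hs.trans h7⟩
      · exfalso
        rcases hT1 (e, f) ⟨he, hf, hc⟩ with h5 | h5
        · obtain ⟨_, _, h6⟩ := hα e he
          obtain ⟨h7, h8⟩ := h6 f hf hc h5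
          rw [hs] at hxe
          unfold drawn at hxe
          rw [mem_drawn hs0 hs1, h3] at hxe
          rcases hxe with h9 | h9
          · have := le_of_mul_le_mul_right h9 hLe
            linarith
          · have := le_of_mul_le_mul_right h9 hLe
            linarith
        · obtain ⟨_, _, h6⟩ := hα f hf
          obtain ⟨h7, h8⟩ := h6 e he (crs_symm hc) h5
          rw [ht] at hxf
          unfold drawn at hxf
          rw [mem_drawn ht0 ht1, h4] at hxf
          rcases hxf with h9 | h9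
          · have := le_of_mul_le_mul_right h9 hLf
            linarith
          · have := le_of_mul_le_mul_right h9 hLf
            linarith

end Pool.Agent.R553.HP
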