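import Mathlib

/-!
# Homogeneous partial edge drawings: definitions
-/

namespace Pool.Agent.R553.HP

/-- The plane. -/
abbrev Pl := EuclideanSpace ℝ (Fin 2)

/-- The input: the list of the positions of the vertices `0, 1, ..., n - 1` (rational
coordinates), and the list of the edges, an edge between `u < v` being given as `(u, v)`. -/
abbrev Dr := List (ℚ × ℚ) × List (ℕ × ℕ)

/-- The position of the vertex `u`, as a point of the plane. -/
noncomputable def pt (D : Dr) (u : ℕ) : Pl :=
  !₂[((D.1.getD u (0, 0)).1 : ℝ), ((D.1.getD u (0, 0)).2 : ℝ)]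

/-- The input is a straight-line drawing of a finite simple graph: the vertices are at distinct
points, and no edge passes through a vertex other than its endpoints. -/
def IsDrawing (D : Dr) : Prop :=
  D.1.Nodup ∧ D.2.Nodup ∧ (∀ e ∈ D.2, e.1 < e.2 ∧ e.2 < D.1.length) ∧
  ∀ e ∈ D.2, ∀ w < D.1.length, w ≠ e.1 → w ≠ e.2 → pt D w ∉ segment ℝ (pt D e.1) (pt D e.2)

/-- The stub at `p`, of length `a`, of the edge drawn as the segment from `p` to `q`. -/
def stub (p q : Pl) (a : ℝ) : Set Pl := {x | x ∈ segment ℝ p q ∧ dist x p ≤ a}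

/-- The part of the edge `e` that is drawn: its two stubs, of length `a e` at `e.1` and of length
`b e` at `e.2`. -/
def drawn (D : Dr) (a b : ℕ × ℕ → ℝ) (e : ℕ × ℕ) : Set Pl :=
  stub (pt D e.1) (pt D e.2) (a e) ∪ stub (pt D e.2) (pt D e.1) (b e)

/-- The stub lengths `a`, `b` give a homogeneous partial edge drawing with parameter `δ`: the two
stub lengths of every edge are nonnegative with sum `2 δ` times the length of the edge, and a point
common to the stubs of two distinct edges is a common endpoint of the two edges. -/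
def IsHPED (δ : ℝ) (D : Dr) (a b : ℕ × ℕ → ℝ) : Prop :=
  (∀ e ∈ D.2, 0 ≤ a e ∧ 0 ≤ b e ∧ a e + b e = 2 * δ * dist (pt D e.1) (pt D e.2)) ∧
  ∀ e ∈ D.2, ∀ f ∈ D.2, e ≠ f → ∀ x, x ∈ drawn D a b e → x ∈ drawn D a b f →
    ∃ w, (w = e.1 ∨ w = e.2) ∧ (w = f.1 ∨ w = f.2) ∧ x = pt D w

/-- The decision problem: the input is a straight-line drawing which admits a homogeneous partial
edge drawing with parameter `δ`. -/
def HPED (δ : ℝ) (D : Dr) : Prop := IsDrawing D ∧ ∃ a b : ℕ × ℕ → ℝ, IsHPED δ D a b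

/-! ### The combinatorial data, over the rationals -/

/-- the position of a vertex -/
def vx (D : Dr) (u : ℕ) : ℚ × ℚ := D.1.getD u (0, 0)

/-- the determinant -/
def dt (p q : ℚ × ℚ) : ℚ := p.1 * q.2 - p.2 * q.1

/-- the difference -/
def df (p q : ℚ × ℚ) : ℚ × ℚ := (q.1 - p.1, q.2 - p.2)

/-- the direction of an edge -/
def dir (D : Dr) (e : ℕ × ℕ) : ℚ × ℚ := df (vx D e.1) (vx D e.2)

/-- the parameter, on the edge `e`, of the intersection of the lines of the edges `e` and `f` -/
def par (D : Dr) (e f : ℕ × ℕ) : ℚ :=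
  dt (df (vx D e.1) (vx D f.1)) (dir D f) / dt (dir D e) (dir D f)

/-- the two edges cross -/
def Crs (D : Dr) (e f : ℕ × ℕ) : Prop :=
  dt (dir D e) (dir D f) ≠ 0 ∧ (0 < par D e f ∧ par D e f < 1) ∧ (0 < par D f e ∧ par D f e < 1)

/-- the point `w` is on the segment from `u` to `v` -/
def OnSeg (p q r : ℚ × ℚ) : Prop :=
  dt (df p q) (df p r) = 0 ∧
    0 ≤ (r.1 - p.1) * (q.1 - p.1) + (r.2 - p.2) * (q.2 - p.2) ∧
    (r.1 - p.1) * (q.1 - p.1) + (r.2 - p.2) * (q.2 - p.2) ≤
      (q.1 - p.1) * (q.1 - p.1) + (q.2 - p.2) * (q.2 - p.2)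

end Pool.Agent.R553.HP
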