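import Pool.Agent.R553.HP.Defs

/-!
# Homogeneous partial edge drawings: geometry
-/

namespace Pool.Agent.R553.HP

theorem pl_ext {x y : Pl} : x = y ↔ x 0 = y 0 ∧ x 1 = y 1 := by
  constructor
  · rintro rfl; exact ⟨rfl, rfl⟩
  · rintro ⟨h0, h1⟩
    ext i
    fin_cases i
    · exact h0
    · exact h1

@[simp] theorem pt_zero (D : Dr) (u : ℕ) : pt D u 0 = ((vx D u).1 : ℝ) := by simp [pt, vx]
@[simp] theorem pt_one (D : Dr) (u : ℕ) : pt D u 1 = ((vx D u).2 : ℝ) := by simp [pt, vx]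

theorem pt_inj {D : Dr} {u v : ℕ} : pt D u = pt D v ↔ vx D u = vx D v := by
  rw [pl_ext, pt_zero, pt_zero, pt_one, pt_one, Prod.ext_iff, Rat.cast_inj, Rat.cast_inj]

/-- the point with parameter `s` -/
noncomputable def at' (p q : Pl) (s : ℝ) : Pl := p + s • (q - p)

theorem mem_seg {p q x : Pl} : x ∈ segment ℝ p q ↔ ∃ s : ℝ, 0 ≤ s ∧ s ≤ 1 ∧ x = at' p q s := by
  rw [segment_eq_image']
  constructor
  · rintro ⟨s, ⟨h0, h1⟩, rfl⟩
    exact ⟨s, h0, h1, rfl⟩
  · rintro ⟨s, h0, h1, rfl⟩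
    exact ⟨s, ⟨h0, h1⟩, rfl⟩

theorem dist_at_left (p q : Pl) {s : ℝ} (h : 0 ≤ s) : dist (at' p q s) p = s * dist p q := by
  unfold at'
  rw [dist_eq_norm, add_sub_cancel_left, norm_smul, Real.norm_eq_abs, abs_of_nonneg h,
    dist_comm, dist_eq_norm]

theorem dist_at_right (p q : Pl) {s : ℝ} (h : s ≤ 1) :
    dist (at' p q s) q = (1 - s) * dist p q := by
  unfold at'
  have : p + s • (q - p) - q = (1 - s) • (p - q) := by
    rw [sub_smul, one_smul, smul_sub, smul_sub]; abel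
  rw [dist_eq_norm, this, norm_smul, Real.norm_eq_abs, abs_of_nonneg (by linarith),
    dist_eq_norm]

theorem at_inj {p q : Pl} (hpq : p ≠ q) {s t : ℝ} (h : at' p q s = at' p q t) : s = t := by
  unfold at' at h
  have h1 : (s - t) • (q - p) = 0 := by
    rw [sub_smul]
    have := add_left_cancel h
    rw [this, sub_self]
  rcases smul_eq_zero.1 h1 with h2 | h2
  · linarith
  · exact absurd (sub_eq_zero.1 h2).symm hpq

theorem at_zero (p q : Pl) : at' p q 0 = p := by simp [at']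
theorem at_one (p q : Pl) : at' p q 1 = q := by simp [at']

theorem mem_drawn {p q : Pl} {a b : ℝ} {s : ℝ} (h0 : 0 ≤ s) (h1 : s ≤ 1) :
    at' p q s ∈ stub p q a ∪ stub q p b ↔ s * dist p q ≤ a ∨ (1 - s) * dist p q ≤ b := by
  unfold stub
  rw [Set.mem_union, Set.mem_ofPred_eq, Set.mem_ofPred_eq, dist_at_left p q h0,
    dist_at_right p q h1, segment_symm ℝ q p]
  have : at' p q s ∈ segment ℝ p q := mem_seg.2 ⟨s, h0, h1, rfl⟩
  simp [this]

theorem at_zero_coord (p q : Pl) (s : ℝ) : at' p q s 0 = p 0 + s * (q 0 - p 0) := by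
  simp [at']
theorem at_one_coord (p q : Pl) (s : ℝ) : at' p q s 1 = p 1 + s * (q 1 - p 1) := by
  simp [at']

/-- The test for a vertex on an edge. -/
theorem onSeg_iff {D : Dr} {u v w : ℕ} (huv : vx D u ≠ vx D v) :
    pt D w ∈ segment ℝ (pt D u) (pt D v) ↔ OnSeg (vx D u) (vx D v) (vx D w) := by
  obtain ⟨⟨a, b⟩, h1⟩ : ∃ p, vx D u = p := ⟨_, rfl⟩
  obtain ⟨⟨c, d⟩, h2⟩ : ∃ p, vx D v = p := ⟨_, rfl⟩
  obtain ⟨⟨x, y⟩, h3⟩ : ∃ p, vx D w = p := ⟨_, rfl⟩
  rw [h1, h2] at huv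
  rw [mem_seg]
  simp only [pl_ext, at_zero_coord, at_one_coord, pt_zero, pt_one, h1, h2, h3, OnSeg, dt, df]
  have hpos : 0 < (c - a) * (c - a) + (d - b) * (d - b) := by
    by_contra hc
    apply huv
    have e1 : c - a = 0 := by nlinarith [mul_self_nonneg (c - a), mul_self_nonneg (d - b)]
    have e2 : d - b = 0 := by nlinarith [mul_self_nonneg (c - a), mul_self_nonneg (d - b)]
    rw [Prod.ext_iff]
    exact ⟨by linarith, by linarith⟩
  have hposR : (0 : ℝ) < ((c : ℝ) - a) * (c - a) + (d - b) * (d - b) := by exact_mod_cast hpos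
  constructor
  · rintro ⟨s, hs0, hs1, hx, hy⟩
    refine ⟨?_, ?_, ?_⟩
    · have : ((c : ℝ) - a) * (y - b) - (d - b) * (x - a) = 0 := by
        rw [hx, hy]; ring
      exact_mod_cast this
    · have : (0 : ℝ) ≤ ((x : ℝ) - a) * (c - a) + (y - b) * (d - b) := by
        have e : ((x : ℝ) - a) * (c - a) + (y - b) * (d - b) =
          s * (((c : ℝ) - a) * (c - a) + (d - b) * (d - b)) := by rw [hx, hy]; ring
        rw [e]; positivity
      exact_mod_cast this
    · have : ((x : ℝ) - a) * (c - a) + (y - b) * (d - b) ≤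
          ((c : ℝ) - a) * (c - a) + (d - b) * (d - b) := by
        have e : ((x : ℝ) - a) * (c - a) + (y - b) * (d - b) =
          s * (((c : ℝ) - a) * (c - a) + (d - b) * (d - b)) := by rw [hx, hy]; ring
        rw [e]; nlinarith
      exact_mod_cast this
  · rintro ⟨h0, h1', h2'⟩
    have h0R : ((c : ℝ) - a) * (y - b) - (d - b) * (x - a) = 0 := by exact_mod_cast h0
    have h1R : (0 : ℝ) ≤ ((x : ℝ) - a) * (c - a) + (y - b) * (d - b) := by exact_mod_cast h1'
    have h2R : ((x : ℝ) - a) * (c - a) + (y - b) * (d - b) ≤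
          ((c : ℝ) - a) * (c - a) + (d - b) * (d - b) := by exact_mod_cast h2'
    obtain ⟨N, hN⟩ : ∃ N : ℝ, N = ((c : ℝ) - a) * (c - a) + (d - b) * (d - b) := ⟨_, rfl⟩
    obtain ⟨M, hM⟩ : ∃ M : ℝ, M = ((x : ℝ) - a) * (c - a) + (y - b) * (d - b) := ⟨_, rfl⟩
    rw [← hN] at hposR h2R
    rw [← hM] at h1R h2R
    have hs : M / N * N = M := div_mul_cancel₀ _ hposR.ne'
    refine ⟨M / N, by positivity, ?_, ?_, ?_⟩
    · rw [div_le_one hposR]; exact h2R
    · apply mul_right_cancel₀ hposR.ne'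
      rw [add_mul, mul_right_comm, hs, hN, hM]
      linear_combination (-(d - b) : ℝ) * h0R
    · apply mul_right_cancel₀ hposR.ne'
      rw [add_mul, mul_right_comm, hs, hN, hM]
      linear_combination ((c - a) : ℝ) * h0R

end Pool.Agent.R553.HP
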