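import Pool.Agent.R553.HP.Geo

/-!
# Homogeneous partial edge drawings: crossings
-/

namespace Pool.Agent.R553.HP

theorem vx_inj {D : Dr} (hD : D.1.Nodup) {u v : ℕ} (hu : u < D.1.length) (hv : v < D.1.length)
    (h : vx D u = vx D v) : u = v := by
  unfold vx at h
  rw [List.getD_eq_getElem _ _ hu, List.getD_eq_getElem _ _ hv] at h
  exact (List.Nodup.getElem_inj_iff hD).1 h

theorem at_swap (p q : Pl) (s : ℝ) : at' q p (1 - s) = at' p q s := by
  unfold at'
  rw [sub_smul, one_smul, smul_sub, smul_sub]; abel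

/-- Two overlapping parallel edges coincide. -/
theorem overlap {D : Dr} {u v u' v' : ℕ}
    (hu : u < D.1.length) (hv : v < D.1.length) (hu' : u' < D.1.length) (hv' : v' < D.1.length)
    (hE : ∀ w < D.1.length, w ≠ u → w ≠ v → pt D w ∉ segment ℝ (pt D u) (pt D v))
    (hF : ∀ w < D.1.length, w ≠ u' → w ≠ v' → pt D w ∉ segment ℝ (pt D u') (pt D v'))
    (huv : pt D u ≠ pt D v) {l s t : ℝ} (hl : 0 < l)
    (hp : pt D v' - pt D u' = l • (pt D v - pt D u))
    (hs0 : 0 < s) (hs1 : s < 1) (ht0 : 0 < t) (ht1 : t < 1)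
    (h : at' (pt D u) (pt D v) s = at' (pt D u') (pt D v') t) : u' = u ∧ v' = v := by
  have hC : pt D u' = at' (pt D u) (pt D v) (s - t * l) := by
    have : at' (pt D u) (pt D v) (s - t * l) =
        at' (pt D u) (pt D v) s - t • (l • (pt D v - pt D u)) := by
      unfold at'; rw [sub_smul, mul_smul]; abel
    rw [this, ← hp, h]
    unfold at'; abel
  have hE' : pt D v' = at' (pt D u) (pt D v) (s + (1 - t) * l) := by
    have : at' (pt D u) (pt D v) (s + (1 - t) * l) =
        at' (pt D u) (pt D v) s + (1 - t) • (l • (pt D v - pt D u)) := by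
      unfold at'; rw [add_smul, mul_smul]; abel
    rw [this, ← hp, h]
    unfold at'; rw [sub_smul, one_smul]; abel
  have hp' : pt D v - pt D u = l⁻¹ • (pt D v' - pt D u') := by
    rw [hp, smul_smul, inv_mul_cancel₀ hl.ne', one_smul]
  have hA : pt D u = at' (pt D u') (pt D v') (t - s * l⁻¹) := by
    have : at' (pt D u') (pt D v') (t - s * l⁻¹) =
        at' (pt D u') (pt D v') t - s • (l⁻¹ • (pt D v' - pt D u')) := by
      unfold at'; rw [sub_smul, mul_smul]; abel
    rw [this, ← hp', ← h]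
    unfold at'; abel
  have hB : pt D v = at' (pt D u') (pt D v') (t + (1 - s) * l⁻¹) := by
    have : at' (pt D u') (pt D v') (t + (1 - s) * l⁻¹) =
        at' (pt D u') (pt D v') t + (1 - s) • (l⁻¹ • (pt D v' - pt D u')) := by
      unfold at'; rw [add_smul, mul_smul]; abel
    rw [this, ← hp', ← h]
    unfold at'; rw [sub_smul, one_smul]; abel
  have htl : 0 < t * l := mul_pos ht0 hl
  have htl' : 0 < (1 - t) * l := mul_pos (by linarith) hl
  constructor
  · by_contra hne
    rcases le_or_gt 0 (s - t * l) with h1 | h1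
    · -- `u'` is on the segment from `u` to `v`
      by_cases h2 : u' = v
      · have := at_inj huv ((at_one _ _).trans ((congrArg (pt D) h2).symm.trans hC))
        linarith
      · exact hE u' hu' hne h2 (mem_seg.2 ⟨_, h1, by linarith, hC⟩)
    · -- `u` is on the segment from `u'` to `v'`
      have h4 : s * l⁻¹ ≤ t := by
        rw [mul_inv_le_iff₀ hl]; linarith
      have h5 : 0 < s * l⁻¹ := by positivity
      by_cases h2 : u = v'
      · have := at_inj huv ((at_zero _ _).trans ((congrArg (pt D) h2).trans hE'))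
        linarith
      · exact hF u hu (fun h => hne h.symm) h2 (mem_seg.2 ⟨_, by linarith, by linarith, hA⟩)
  · by_contra hne
    rcases le_or_gt (s + (1 - t) * l) 1 with h1 | h1
    · by_cases h2 : v' = u
      · have := at_inj huv ((at_zero _ _).trans ((congrArg (pt D) h2).symm.trans hE'))
        linarith
      · exact hE v' hv' h2 hne (mem_seg.2 ⟨_, by linarith, h1, hE'⟩)
    · have h4 : (1 - s) * l⁻¹ ≤ 1 - t := by
        rw [mul_inv_le_iff₀ hl]; linarith
      have h5 : 0 < (1 - s) * l⁻¹ := mul_pos (by linarith) (by positivity)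
      by_cases h2 : v = u'
      · have := at_inj huv ((at_one _ _).trans ((congrArg (pt D) h2).trans hC))
        linarith
      · exact hF v hv h2 (fun h => hne h.symm) (mem_seg.2 ⟨_, by linarith, by linarith, hB⟩)

theorem alg_cross {a b c d x y z w : ℚ} (h : (c - a) * (w - y) - (d - b) * (z - x) ≠ 0) :
    a + (((x - a) * (w - y) - (y - b) * (z - x)) / ((c - a) * (w - y) - (d - b) * (z - x))) *
      (c - a) =
    x + (((a - x) * (d - b) - (b - y) * (c - a)) / ((z - x) * (d - b) - (w - y) * (c - a))) *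
      (z - x) ∧
    b + (((x - a) * (w - y) - (y - b) * (z - x)) / ((c - a) * (w - y) - (d - b) * (z - x))) *
      (d - b) =
    y + (((a - x) * (d - b) - (b - y) * (c - a)) / ((z - x) * (d - b) - (w - y) * (c - a))) *
      (w - y) := by
  have h2 : (z - x) * (d - b) - (w - y) * (c - a) = -((c - a) * (w - y) - (d - b) * (z - x)) := by
    ring
  rw [h2]
  obtain ⟨N, hN⟩ : ∃ N : ℚ, N = (c - a) * (w - y) - (d - b) * (z - x) := ⟨_, rfl⟩
  rw [← hN] at h ⊢
  constructor
  · field_simp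
    rw [hN]; ring
  · field_simp
    rw [hN]; ring

theorem at_eq_of_crs {D : Dr} {e f : ℕ × ℕ} (h : dt (dir D e) (dir D f) ≠ 0) :
    at' (pt D e.1) (pt D e.2) (par D e f) = at' (pt D f.1) (pt D f.2) (par D f e) := by
  rw [pl_ext]
  simp only [at_zero_coord, at_one_coord, pt_zero, pt_one]
  obtain ⟨h1, h2⟩ := alg_cross h
  exact ⟨by exact_mod_cast h1, by exact_mod_cast h2⟩

theorem par_eq_of_at {D : Dr} {e f : ℕ × ℕ} (h : dt (dir D e) (dir D f) ≠ 0) {s t : ℝ}
    (hst : at' (pt D e.1) (pt D e.2) s = at' (pt D f.1) (pt D f.2) t) : s = par D e f := by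
  rw [pl_ext] at hst
  simp only [at_zero_coord, at_one_coord, pt_zero, pt_one] at hst
  obtain ⟨h1, h2⟩ := hst
  have h' : ((dt (dir D e) (dir D f) : ℚ) : ℝ) ≠ 0 := by exact_mod_cast h
  unfold par
  rw [Rat.cast_div, eq_div_iff h']
  unfold dir dt df
  push_cast
  linear_combination ((vx D f.2).2 - (vx D f.1).2 : ℝ) * h1 - ((vx D f.2).1 - (vx D f.1).1 : ℝ) * h2

theorem dt_swap {p q : ℚ × ℚ} : dt q p = - dt p q := by unfold dt; ring

theorem crs_symm {D : Dr} {e f : ℕ × ℕ} (h : Crs D e f) : Crs D f e := by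
  refine ⟨?_, h.2.2, h.2.1⟩
  rw [dt_swap]
  exact neg_ne_zero.2 h.1

/-- The intersections of the edges of a drawing. -/
theorem inter {D : Dr} (hD : IsDrawing D) {e f : ℕ × ℕ} (he : e ∈ D.2) (hf : f ∈ D.2)
    (hef : e ≠ f) {s t : ℝ} (hs0 : 0 ≤ s) (hs1 : s ≤ 1) (ht0 : 0 ≤ t) (ht1 : t ≤ 1)
    (h : at' (pt D e.1) (pt D e.2) s = at' (pt D f.1) (pt D f.2) t) :
    (∃ w, (w = e.1 ∨ w = e.2) ∧ (w = f.1 ∨ w = f.2) ∧ at' (pt D e.1) (pt D e.2) s = pt D w) ∨
    (Crs D e f ∧ s = par D e f ∧ t = par D f e) := by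
  obtain ⟨hN, _, hlt, hv⟩ := hD
  obtain ⟨e1, e2⟩ := e
  obtain ⟨f1, f2⟩ := f
  simp only at *
  have he' := hlt _ he
  have hf' := hlt _ hf
  simp only at he' hf'
  have hE := hv _ he
  have hF := hv _ hf
  simp only at hE hF
  by_cases hs : s = 0
  · subst hs
    rw [at_zero] at h ⊢
    left
    refine ⟨e1, Or.inl rfl, ?_, rfl⟩
    by_contra hc
    push Not at hc
    exact hF e1 (by omega) hc.1 hc.2 (mem_seg.2 ⟨t, ht0, ht1, h⟩)
  by_cases hs' : s = 1
  · subst hs'
    rw [at_one] at h ⊢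
    left
    refine ⟨e2, Or.inr rfl, ?_, rfl⟩
    by_contra hc
    push Not at hc
    exact hF e2 (by omega) hc.1 hc.2 (mem_seg.2 ⟨t, ht0, ht1, h⟩)
  by_cases ht : t = 0
  · subst ht
    rw [at_zero] at h
    left
    refine ⟨f1, ?_, Or.inl rfl, h⟩
    by_contra hc
    push Not at hc
    exact hE f1 (by omega) hc.1 hc.2 (mem_seg.2 ⟨s, hs0, hs1, h.symm⟩)
  by_cases ht' : t = 1
  · subst ht'
    rw [at_one] at h
    left
    refine ⟨f2, ?_, Or.inr rfl, h⟩
    by_contra hc
    push Not at hc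
    exact hE f2 (by omega) hc.1 hc.2 (mem_seg.2 ⟨s, hs0, hs1, h.symm⟩)
  have hs0' : 0 < s := lt_of_le_of_ne hs0 (Ne.symm hs)
  have hs1' : s < 1 := lt_of_le_of_ne hs1 hs'
  have ht0' : 0 < t := lt_of_le_of_ne ht0 (Ne.symm ht)
  have ht1' : t < 1 := lt_of_le_of_ne ht1 ht'
  have hne : pt D e1 ≠ pt D e2 := fun h0 => by
    have := vx_inj hN (by omega) (by omega) (pt_inj.1 h0)
    omega
  have hne' : pt D f1 ≠ pt D f2 := fun h0 => by
    have := vx_inj hN (by omega) (by omega) (pt_inj.1 h0)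
    omega
  by_cases hd : dt (dir D (e1, e2)) (dir D (f1, f2)) = 0
  · exfalso
    -- parallel
    obtain ⟨l, hl⟩ : ∃ l : ℝ, pt D f2 - pt D f1 = l • (pt D e2 - pt D e1) := by
      have hdR : (((vx D e2).1 : ℝ) - (vx D e1).1) * ((vx D f2).2 - (vx D f1).2) -
          (((vx D e2).2 : ℝ) - (vx D e1).2) * ((vx D f2).1 - (vx D f1).1) = 0 := by
        unfold dt dir df at hd
        exact_mod_cast hd
      obtain ⟨a, ha⟩ : ∃ a : ℝ, a = ((vx D e2).1 : ℝ) - (vx D e1).1 := ⟨_, rfl⟩
      obtain ⟨b, hb⟩ : ∃ b : ℝ, b = ((vx D e2).2 : ℝ) - (vx D e1).2 := ⟨_, rfl⟩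
      obtain ⟨c, hc⟩ : ∃ c : ℝ, c = ((vx D f2).1 : ℝ) - (vx D f1).1 := ⟨_, rfl⟩
      obtain ⟨d, hd'⟩ : ∃ d : ℝ, d = ((vx D f2).2 : ℝ) - (vx D f1).2 := ⟨_, rfl⟩
      rw [← ha, ← hb, ← hc, ← hd'] at hdR
      have hab : a ≠ 0 ∨ b ≠ 0 := by
        by_contra hcon
        push Not at hcon
        apply hne
        rw [pl_ext, pt_zero, pt_zero, pt_one, pt_one]
        constructor <;> linarith [hcon.1, hcon.2]
      rcases hab with h1 | h1
      · refine ⟨c / a, ?_⟩
        rw [pl_ext]
        simp only [PiLp.sub_apply, PiLp.smul_apply, pt_zero, pt_one, smul_eq_mul, ← ha, ← hb,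
          ← hc, ← hd']
        constructor
        · field_simp
        · field_simp
          linarith
      · refine ⟨d / b, ?_⟩
        rw [pl_ext]
        simp only [PiLp.sub_apply, PiLp.smul_apply, pt_zero, pt_one, smul_eq_mul, ← ha, ← hb,
          ← hc, ← hd']
        constructor
        · field_simp
          linarith
        · field_simp
    rcases lt_trichotomy l 0 with hl0 | hl0 | hl0
    · -- opposite directions
      have := overlap (l := -l) (t := 1 - t) (s := s) (D := D) (u := e1) (v := e2) (u' := f2)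
        (v' := f1) (by omega) (by omega) (by omega) (by omega) hE
        (fun w hw h1 h2 => by rw [segment_symm]; exact hF w hw h2 h1) hne (by linarith)
        (by rw [neg_smul, ← hl]; abel) hs0' hs1' (by linarith) (by linarith)
        (by rw [at_swap]; exact h)
      omega
    · rw [hl0, zero_smul] at hl
      exact hne' (sub_eq_zero.1 hl).symm
    · have := overlap (l := l) (t := t) (s := s) (D := D) (u := e1) (v := e2) (u' := f1)
        (v' := f2) (by omega) (by omega) (by omega) (by omega) hE hF hne hl0 hl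
        hs0' hs1' ht0' ht1' h
      exact hef (by rw [this.1, this.2])
  · right
    have hd' : dt (dir D (f1, f2)) (dir D (e1, e2)) ≠ 0 := by
      rw [dt_swap]; exact neg_ne_zero.2 hd
    have h1 : s = par D (e1, e2) (f1, f2) := par_eq_of_at hd h
    have h2 : t = par D (f1, f2) (e1, e2) := par_eq_of_at hd' h.symm
    refine ⟨⟨hd, ⟨?_, ?_⟩, ⟨?_, ?_⟩⟩, h1, h2⟩
    · rw [h1] at hs0'; exact_mod_cast hs0'
    · rw [h1] at hs1'; exact_mod_cast hs1'
    · rw [h2] at ht0'; exact_mod_cast ht0'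
    · rw [h2] at ht1'; exact_mod_cast ht1'

end Pool.Agent.R553.HP
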